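import Pool.Agent.H606.GU.Stm
import Pool.Graph.R_seed8.Helper625.Planch

/-! TASK REP of project GU (helper606), by helper44: the reproducing property of the sine kernel. -/

open MeasureTheory Filter Topology Finset FourierTransform
open Pool.Agent.H606.GU

namespace Pool.Agent.H44.GU.REP

lemma SK_neg (x : ℝ) : SK (-x) = SK x := by
  unfold SK
  rw [mul_neg, Real.sinc_neg]

/-- the integral of a character over `[-1/2, 1/2]` -/
lemma int_char (r : ℝ) :
    ∫ ξ in (-(1 / 2) : ℝ)..(1 / 2), Complex.exp (((2 * Real.pi * r * ξ : ℝ) : ℂ) * Complex.I) =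
      (SK r : ℂ) := by
  rcases eq_or_ne r 0 with rfl | hr
  · simp only [mul_zero, zero_mul, Complex.ofReal_zero, Complex.exp_zero,
      intervalIntegral.integral_const, SK, Real.sinc_zero]
    norm_num
  · have hc : 2 * Real.pi * r ≠ 0 := by
      have := Real.pi_ne_zero
      positivity
    have h2 := intervalIntegral.integral_comp_mul_left
      (fun t : ℝ => Complex.exp ((t : ℂ) * Complex.I)) hc (a := -(1 / 2)) (b := 1 / 2)
    have h3 : (2 * Real.pi * r) * (-(1 / 2)) = -(Real.pi * r) := by ring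
    have h4 : (2 * Real.pi * r) * (1 / 2) = Real.pi * r := by ring
    rw [h3, h4, integral_exp_mul_I_eq_sinc] at h2
    rw [h2, SK, Complex.real_smul]
    have h5 : ((2 * Real.pi * r : ℝ) : ℂ) ≠ 0 := by exact_mod_cast hc
    rw [Complex.ofReal_inv, inv_mul_eq_iff_eq_mul₀ h5]
    push_cast
    ring

/-- the character cut off to `[-1/2, 1/2]` -/
noncomputable def fx (x : ℝ) : ℝ → ℂ :=
  (Set.Icc (-(1 / 2) : ℝ) (1 / 2)).indicator
    fun ξ => Complex.exp (((2 * Real.pi * x * ξ : ℝ) : ℂ) * Complex.I)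

lemma exp_cont (x : ℝ) :
    Continuous fun ξ : ℝ => Complex.exp (((2 * Real.pi * x * ξ : ℝ) : ℂ) * Complex.I) := by
  fun_prop

lemma fx_mem (x : ℝ) (p : ENNReal) : MemLp (fx x) p := by
  unfold fx
  rw [memLp_indicator_iff_restrict measurableSet_Icc]
  refine MemLp.of_bound (exp_cont x).aestronglyMeasurable 1 ?_
  refine Eventually.of_forall fun ξ => ?_
  rw [Complex.norm_exp_ofReal_mul_I]

lemma fourier_fx (x t : ℝ) : 𝓕 (fx x) t = (SK (t - x) : ℂ) := by
  rw [Real.fourier_real_eq_integral_exp_smul, ← SK_neg, neg_sub, ← int_char]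
  have h1 : ∀ v : ℝ, Complex.exp (((-2 * Real.pi * v * t : ℝ) : ℂ) * Complex.I) • fx x v =
      (Set.Icc (-(1 / 2) : ℝ) (1 / 2)).indicator
        (fun ξ => Complex.exp (((2 * Real.pi * (x - t) * ξ : ℝ) : ℂ) * Complex.I)) v := by
    intro v
    unfold fx
    by_cases hv : v ∈ Set.Icc (-(1 / 2) : ℝ) (1 / 2)
    · rw [Set.indicator_of_mem hv, Set.indicator_of_mem hv, smul_eq_mul, ← Complex.exp_add]
      congr 1
      push_cast
      ring
    · rw [Set.indicator_of_notMem hv, Set.indicator_of_notMem hv, smul_zero]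
  simp_rw [h1]
  rw [integral_indicator measurableSet_Icc, intervalIntegral.integral_of_le (by norm_num),
    integral_Icc_eq_integral_Ioc]

theorem t_REP : S_REP := by
  intro x y
  have hx := Pool.Agent.Helper625.Planch.fourier_ae_eq (fx x)
    (memLp_one_iff_integrable.1 (fx_mem x 1)) (fx_mem x 2)
  have hy := Pool.Agent.Helper625.Planch.fourier_ae_eq (fx y)
    (memLp_one_iff_integrable.1 (fx_mem y 1)) (fx_mem y 2)
  set F : Lp ℂ 2 (volume : Measure ℝ) := (fx_mem x 2).toLp (fx x) with hF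
  set G : Lp ℂ 2 (volume : Measure ℝ) := (fx_mem y 2).toLp (fx y) with hG
  have h1 : (fun t : ℝ => inner ℂ ((𝓕 F : Lp ℂ 2 (volume : Measure ℝ)) t)
      ((𝓕 G : Lp ℂ 2 (volume : Measure ℝ)) t)) =ᵐ[volume]
      fun t => ((SK (t - x) * SK (t - y) : ℝ) : ℂ) := by
    filter_upwards [hx, hy] with t h2 h3
    rw [h2, h3, fourier_fx, fourier_fx, RCLike.inner_apply, Complex.conj_ofReal,
      ← Complex.ofReal_mul, mul_comm]
  have h4 : Integrable fun t => ((SK (t - x) * SK (t - y) : ℝ) : ℂ) :=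
    (L2.integrable_inner (𝕜 := ℂ) (𝓕 F : Lp ℂ 2 (volume : Measure ℝ)) (𝓕 G)).congr h1
  have h5 : Integrable fun t => SK (t - x) * SK (t - y) := by
    have := h4.re
    simpa using this
  refine ⟨h5, ?_⟩
  have h6 : ∫ t, ((SK (t - x) * SK (t - y) : ℝ) : ℂ) = (SK (x - y) : ℂ) := by
    rw [← integral_congr_ae h1, ← L2.inner_def, Lp.inner_fourier_eq, L2.inner_def,
      ← SK_neg, neg_sub, ← int_char]
    have h7 : (fun t : ℝ => inner ℂ (F t) (G t)) =ᵐ[volume]
        (Set.Icc (-(1 / 2) : ℝ) (1 / 2)).indicator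
          (fun ξ => Complex.exp (((2 * Real.pi * (y - x) * ξ : ℝ) : ℂ) * Complex.I)) := by
      filter_upwards [(fx_mem x 2).coeFn_toLp, (fx_mem y 2).coeFn_toLp] with t h8 h9
      rw [hF, hG, h8, h9, RCLike.inner_apply]
      unfold fx
      by_cases hv : t ∈ Set.Icc (-(1 / 2) : ℝ) (1 / 2)
      · rw [Set.indicator_of_mem hv, Set.indicator_of_mem hv, Set.indicator_of_mem hv,
          ← Complex.exp_conj, ← Complex.exp_add]
        congr 1
        rw [map_mul, Complex.conj_ofReal, Complex.conj_I]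
        push_cast
        ring
      · rw [Set.indicator_of_notMem hv, Set.indicator_of_notMem hv, Set.indicator_of_notMem hv,
          zero_mul]
    rw [integral_congr_ae h7, integral_indicator measurableSet_Icc,
      intervalIntegral.integral_of_le (by norm_num), integral_Icc_eq_integral_Ioc]
  have h10 : ((∫ t, SK (t - x) * SK (t - y) : ℝ) : ℂ) = (SK (x - y) : ℂ) := by
    rw [← h6]
    exact integral_ofReal.symm
  exact_mod_cast h10

end Pool.Agent.H44.GU.REP
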